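import Mathlib
import Pool.Agent.W442.SV.Fin

/-!
# A local h-polynomial of a Schubert variety that is not unimodal

For `w = 8 9 10 6 4 7 3 5 1 2` and `v = 4 1 10 8 6 5 3 9 2 7` in `S_10` one has `v ≤ w` and
`H_{v,w}(q) = 1 + 4 q + 3 q ^ 2 + 4 q ^ 3 + ...`.
-/

namespace Pool.Agent.Results.MP_ebba11_co.LocalHNotUnimodal

open Pool.Agent.W442.SV

/-- The coefficients `a 0, ..., a d` of a polynomial of degree `d` are unimodal: there is `k` such
that they increase (weakly) up to the index `k` and decrease (weakly) from the index `k` up to the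
index `d`.  That `i < d` is expressed by a nonzero coefficient of larger index. -/
def Unimodal (a : ℕ → ℤ) : Prop :=
  ∃ k : ℕ, ∀ i : ℕ, (∃ l, i < l ∧ a l ≠ 0) →
    (i < k → a i ≤ a (i + 1)) ∧ (k ≤ i → a (i + 1) ≤ a i)

/-- There are `v ≤ w` in `S_10` such that the coefficients of `H_{v,w}` are not unimodal: the first
four are `1, 4, 3, 4`. -/
theorem result : ∃ v w : Equiv.Perm (Fin 10), BruhatLE v w ∧
    (hcoeff v w 0 = 1 ∧ hcoeff v w 1 = 4 ∧ hcoeff v w 2 = 3 ∧ hcoeff v w 3 = 4) ∧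
    ¬ Unimodal (hcoeff v w) := by
  refine ⟨v0, w0, v0_le_w0, ⟨hcoeff_zero, hcoeff_one, hcoeff_two, hcoeff_three⟩, ?_⟩
  rintro ⟨k, hk⟩
  have h3 : hcoeff v0 w0 3 ≠ 0 := by
    rw [hcoeff_three]
    norm_num
  have h1 := (hk 1 ⟨3, by norm_num, h3⟩).1
  have h2 := (hk 2 ⟨3, by norm_num, h3⟩).2
  rw [one_add_one_eq_two, hcoeff_one, hcoeff_two] at h1
  rw [show (2 + 1 : ℕ) = 3 from rfl, hcoeff_two, hcoeff_three] at h2
  rcases lt_or_ge 1 k with h | h
  · exact absurd (h1 h) (by norm_num)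
  · exact absurd (h2 (by omega)) (by norm_num)

end Pool.Agent.Results.MP_ebba11_co.LocalHNotUnimodal
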